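import Pool.Agent.Y17.G.Defs

/-!
Evenness of the number of remaining representations (project Z17G, `S_F4` and `S_FQ`).
-/

set_option autoImplicit false

namespace Pool.Agent.Y528.ZG

open Finset
open Pool.Agent.Z700 (pr)
open Pool.Agent.Y17.N (Sp)
open Pool.Agent.Y17.G

/-- a set with a perfect matching is even -/
theorem even_of_matching {α : Type} (S : Finset α) (R : α → α → Prop)
    (hsymm : ∀ a b, R a b → R b a) (hirr : ∀ a ∈ S, ¬ R a a) (hex : ∀ a ∈ S, ∃ b ∈ S, R a b)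
    (huniq : ∀ a ∈ S, ∀ b ∈ S, ∀ c ∈ S, R a b → R a c → b = c) : Even S.card := by
  classical
  choose g hg1 hg2 using hex
  have h : ∑ _a ∈ S, (1 : ZMod 2) = 0 := by
    refine Finset.sum_involution (fun a ha => g a ha) ?_ ?_ ?_ ?_
    · intro a ha
      decide
    · intro a ha _ h1
      have h2 := hg2 a ha
      rw [h1] at h2
      exact hirr a ha h2
    · intro a ha
      exact hg1 a ha
    · intro a ha
      have h1 := hg2 (g a ha) (hg1 a ha)
      have h2 := hsymm _ _ (hg2 a ha)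
      exact huniq _ (hg1 a ha) _ (hg1 _ _) _ ha h1 h2
  rw [Finset.sum_const, nsmul_eq_mul, mul_one] at h
  exact (ZMod.natCast_eq_zero_iff_even).1 h

theorem gcd1 {l : ℕ} (hl : l.Prime) {a : ℤ} (h : ¬ (l : ℤ) ∣ a) : a.gcd l = 1 := by
  rw [← Int.isCoprime_iff_gcd_eq_one]
  exact (((Nat.prime_iff_prime_int.1 hl).coprime_iff_not_dvd).2 h).symm

/-! ### the primes -/

theorem prime_of {A : Finset ℕ} (h : Cl A) {l : ℕ} (hl : l ∈ A) : l.Prime := by
  rcases h.1 l hl with h1 | h1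
  · exact h1.1
  · exact h1.1

theorem mod8 {A : Finset ℕ} (h : Cl A) {l : ℕ} (hl : l ∈ A) :
    l % 8 = 1 ∨ l % 8 = 3 ∨ l % 8 = 5 := by
  rcases h.1 l hl with h1 | h1
  · exact Or.inl h1.2.1
  · exact Or.inr h1.2.1

theorem odd_of {A : Finset ℕ} (h : Cl A) {l : ℕ} (hl : l ∈ A) : Odd l := by
  rw [Nat.odd_iff]
  rcases mod8 h hl with h1 | h1 | h1 <;> omega

theorem mod7 {A : Finset ℕ} (h : Cl A) {l : ℕ} (hl : l ∈ A) : l % 7 ≠ 0 := by
  rcases h.1 l hl with h1 | h1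
  · rcases h1.2.2 with h2 | h2 | h2 <;> omega
  · rcases h1.2.2 with h2 | h2 | h2 <;> omega

theorem j7 {l : ℕ} (h : l % 7 = 1 ∨ l % 7 = 2 ∨ l % 7 = 4) : jacobiSym (l : ℤ) 7 = 1 := by
  rw [jacobiSym.mod_left]
  have e : ((l : ℤ) % ((7 : ℕ) : ℤ)) = ((l % 7 : ℕ) : ℤ) := by push_cast; rfl
  rw [e]
  rcases h with h | h | h <;> rw [h] <;> norm_num

theorem j7' {l : ℕ} (h : l % 7 = 3 ∨ l % 7 = 5 ∨ l % 7 = 6) : jacobiSym (l : ℤ) 7 = -1 := by
  rw [jacobiSym.mod_left]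
  have e : ((l : ℤ) % ((7 : ℕ) : ℤ)) = ((l % 7 : ℕ) : ℤ) := by push_cast; rfl
  rw [e]
  rcases h with h | h | h <;> rw [h] <;> norm_num

theorem seven_sp {p : ℕ} (h : Sp p) : jacobiSym 7 p = 1 := by
  have h1 := jacobiSym.quadratic_reciprocity_one_mod_four' (a := 7) (b := p) (by decide)
    (by have := h.2.1; omega)
  have h2 : jacobiSym ((7 : ℕ) : ℤ) p = jacobiSym 7 p := by norm_num
  rw [← h2, h1, j7 h.2.2]

theorem seven_i3 {p : ℕ} (h : In p) (h3 : p % 8 = 3) : jacobiSym 7 p = 1 := by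
  have h1 := jacobiSym.quadratic_reciprocity_three_mod_four (a := 7) (b := p) (by norm_num)
    (by omega)
  have h2 : jacobiSym ((7 : ℕ) : ℤ) p = jacobiSym 7 p := by norm_num
  rw [← h2, h1, j7' h.2.2]
  norm_num

theorem seven_i5 {p : ℕ} (h : In p) (h3 : p % 8 = 5) : jacobiSym 7 p = -1 := by
  have h1 := jacobiSym.quadratic_reciprocity_one_mod_four' (a := 7) (b := p) (by decide)
    (by omega)
  have h2 : jacobiSym ((7 : ℕ) : ℤ) p = jacobiSym 7 p := by norm_num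
  rw [← h2, h1, j7' h.2.2]

theorem two_sp {p : ℕ} (h : p % 8 = 1) : jacobiSym 2 p = 1 := by
  rw [jacobiSym.at_two (by rw [Nat.odd_iff]; omega), ZMod.χ₈_nat_mod_eight, h]
  decide

theorem two_in {p : ℕ} (h : p % 8 = 3 ∨ p % 8 = 5) : jacobiSym 2 p = -1 := by
  rw [jacobiSym.at_two (by rw [Nat.odd_iff]; omega), ZMod.χ₈_nat_mod_eight]
  rcases h with h | h <;> rw [h] <;> decide

theorem sp_of {A : Finset ℕ} (h : Cl A) {p : ℕ} (hp : p ∈ sp A) : Sp p := by
  unfold sp at hp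
  rw [mem_filter] at hp
  rcases h.1 p hp.1 with h1 | h1
  · exact h1
  · rcases h1.2.1 with h2 | h2 <;> omega

theorem i3_of {A : Finset ℕ} (h : Cl A) {p : ℕ} (hp : p ∈ i3 A) : In p ∧ p % 8 = 3 := by
  unfold i3 at hp
  rw [mem_filter] at hp
  rcases h.1 p hp.1 with h1 | h1
  · have := h1.2.1; omega
  · exact ⟨h1, hp.2⟩

theorem i5_of {A : Finset ℕ} (h : Cl A) {p : ℕ} (hp : p ∈ i5 A) : In p ∧ p % 8 = 5 := by
  unfold i5 at hp
  rw [mem_filter] at hp
  rcases h.1 p hp.1 with h1 | h1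
  · have := h1.2.1; omega
  · exact ⟨h1, hp.2⟩

/-- the symbols of `δ` satisfy the condition -/
theorem cnd_seven {A : Finset ℕ} (h : Cl A) : cnd A (fun l => jacobiSym 7 l) :=
  ⟨fun p hp => seven_sp (sp_of h hp),
    fun r hr r' hr' => by
      have h1 := i3_of h hr
      have h2 := i3_of h hr'
      simp only
      rw [seven_i3 h1.1 h1.2, seven_i3 h2.1 h2.2],
    fun r hr r' hr' => by
      have h1 := i5_of h hr
      have h2 := i5_of h hr'
      simp only
      rw [seven_i5 h1.1 h1.2, seven_i5 h2.1 h2.2]⟩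

theorem cnd_two {A : Finset ℕ} (h : Cl A) : cnd A (fun l => jacobiSym 2 l) :=
  ⟨fun p hp => two_sp (sp_of h hp).2.1,
    fun r hr r' hr' => by
      have h1 := i3_of h hr
      have h2 := i3_of h hr'
      simp only
      rw [two_in (Or.inl h1.2), two_in (Or.inl h2.2)],
    fun r hr r' hr' => by
      have h1 := i5_of h hr
      have h2 := i5_of h hr'
      simp only
      rw [two_in (Or.inr h1.2), two_in (Or.inr h2.2)]⟩

theorem cnd_mul {A : Finset ℕ} {f g : ℕ → ℤ} (hf : cnd A f) (hg : cnd A g) :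
    cnd A (fun l => f l * g l) := by
  refine ⟨fun p hp => ?_, fun r hr r' hr' => ?_, fun r hr r' hr' => ?_⟩
  · simp only
    rw [hf.1 p hp, hg.1 p hp, one_mul]
  · simp only
    rw [hf.2.1 r hr r' hr', hg.2.1 r hr r' hr']
  · simp only
    rw [hf.2.2 r hr r' hr', hg.2.2 r hr r' hr']

theorem cnd_congr {A : Finset ℕ} {f g : ℕ → ℤ} (h : ∀ l ∈ A, f l = g l) (hf : cnd A f) :
    cnd A g := by
  refine ⟨fun p hp => ?_, fun r hr r' hr' => ?_, fun r hr r' hr' => ?_⟩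
  · rw [← h p (mem_filter.1 hp).1]
    exact hf.1 p hp
  · rw [← h r (mem_filter.1 hr).1, ← h r' (mem_filter.1 hr').1]
    exact hf.2.1 r hr r' hr'
  · rw [← h r (mem_filter.1 hr).1, ← h r' (mem_filter.1 hr').1]
    exact hf.2.2 r hr r' hr'

/-- the symbols which depend only on the set of flips -/
noncomputable def fT (m : ℕ) (A T : Finset ℕ) (l : ℕ) : ℤ :=
  if l ∈ T then jacobiSym (7 * ((m : ℤ) * (pr (A \ T) : ℤ))) l else jacobiSym (-7 * (pr T : ℤ)) l

theorem sym_fT (hs : S_SYM) {m : ℕ} {A : Finset ℕ} (hA : MA m A) {s s' : ℤ × ℤ} (h1 : s ∈ Sol m A)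
    (h2 : s' ∈ Sol m A) : ∃ d : ℕ → ℤ, cnd A d ∧ (∀ l ∈ A, d l * d l = 1) ∧
      ∀ l ∈ A, jacobiSym (s.2 * s'.2) l = d l * fT m A (Fl A s s') l := by
  obtain ⟨-, -, δ, hδ, a1, a2, -⟩ := hs m A hA s h1 s' h2
  have hCl := hA.1
  have c2 := cnd_two hCl
  have c7 := cnd_seven hCl
  have sq2 : ∀ l ∈ A, jacobiSym 2 l * jacobiSym 2 l = 1 := by
    intro l hl
    rcases mod8 hCl hl with h | h | h
    · rw [two_sp h]; norm_num
    · rw [two_in (Or.inl h)]; norm_num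
    · rw [two_in (Or.inr h)]; norm_num
  have sq7 : ∀ l ∈ A, jacobiSym 7 l * jacobiSym 7 l = 1 := by
    intro l hl
    rcases mod8 hCl hl with h | h | h
    · rw [seven_sp (sp_of hCl (mem_filter.2 ⟨hl, h⟩))]; norm_num
    · have := i3_of hCl (mem_filter.2 ⟨hl, h⟩ : l ∈ i3 A)
      rw [seven_i3 this.1 this.2]; norm_num
    · have := i5_of hCl (mem_filter.2 ⟨hl, h⟩ : l ∈ i5 A)
      rw [seven_i5 this.1 this.2]; norm_num
  have key : ∀ l ∈ A, jacobiSym (s.2 * s'.2) l = jacobiSym δ l * fT m A (Fl A s s') l := by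
    intro l hl
    unfold fT
    by_cases h : l ∈ Fl A s s'
    · rw [if_pos h, a2 l h, ← jacobiSym.mul_left]
      congr 1
      ring
    · rw [if_neg h, a1 l hl h, ← jacobiSym.mul_left]
      congr 1
      ring
  rcases hδ with rfl | rfl
  · exact ⟨fun l => jacobiSym 2 l, c2, sq2, key⟩
  · have e : ∀ l : ℕ, jacobiSym 14 l = jacobiSym 2 l * jacobiSym 7 l := by
      intro l
      rw [← jacobiSym.mul_left]
      norm_num
    refine ⟨fun l => jacobiSym 2 l * jacobiSym 7 l, cnd_mul c2 c7, ?_, ?_⟩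
    · intro l hl
      have h3 := sq2 l hl
      have h4 := sq7 l hl
      calc jacobiSym 2 l * jacobiSym 7 l * (jacobiSym 2 l * jacobiSym 7 l)
          = (jacobiSym 2 l * jacobiSym 2 l) * (jacobiSym 7 l * jacobiSym 7 l) := by ring
        _ = 1 := by rw [h3, h4, one_mul]
    · intro l hl
      beta_reduce
      rw [← e l]
      exact key l hl

theorem cnd_to (hs : S_SYM) {m : ℕ} {A : Finset ℕ} (hA : MA m A) {s s' : ℤ × ℤ}
    (h1 : s ∈ Sol m A) (h2 : s' ∈ Sol m A) (h : cnd A (fun l => jacobiSym (s.2 * s'.2) l)) :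
    cnd A (fT m A (Fl A s s')) := by
  obtain ⟨d, hd1, hd2, hd3⟩ := sym_fT hs hA h1 h2
  refine cnd_congr (fun l hl => ?_) (cnd_mul hd1 h)
  rw [hd3 l hl, ← mul_assoc, hd2 l hl, one_mul]

theorem cnd_from (hs : S_SYM) {m : ℕ} {A : Finset ℕ} (hA : MA m A) {s s' : ℤ × ℤ}
    (h1 : s ∈ Sol m A) (h2 : s' ∈ Sol m A) (h : cnd A (fT m A (Fl A s s'))) :
    cnd A (fun l => jacobiSym (s.2 * s'.2) l) := by
  obtain ⟨d, hd1, hd2, hd3⟩ := sym_fT hs hA h1 h2
  refine cnd_congr (fun l hl => ?_) (cnd_mul hd1 h)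
  exact (hd3 l hl).symm

/-- the condition is stable under admissible flips -/
theorem cond_flip (hs : S_SYM) {m : ℕ} {A : Finset ℕ} (hA : MA m A) {s s' : ℤ × ℤ}
    (h1 : s ∈ Sol m A) (h2 : s' ∈ Sol m A) (h : cnd A (fT m A (Fl A s s')))
    (hc : Cond s.2 A) : Cond s'.2 A := by
  have h3 := cnd_from hs hA h1 h2 h
  refine cnd_congr (fun l hl => ?_) (cnd_mul hc h3)
  have h4 := ((hs m A hA s h1 s' h2).1 l hl).1
  have h5 := jacobiSym.sq_one (gcd1 (prime_of hA.1 hl) h4)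
  rw [jacobiSym.mul_left, ← mul_assoc, ← sq, h5, one_mul]

/-! ### flips -/

theorem exists_flip (hs : S_SYM) (hf : S_FLIP) {m : ℕ} {A : Finset ℕ} (hA : MA m A)
    {s : ℤ × ℤ} (h1 : s ∈ Sol m A) {T : Finset ℕ} (hT : T ⊆ A) (hTe : Even (inn T).card) :
    ∃ s' ∈ Sol m A, Fl A s s' = T := by
  obtain ⟨s', h2, h3, h4⟩ := hf m A hA s h1 T hT hTe
  refine ⟨s', h2, ?_⟩
  ext l
  constructor
  · intro hl
    by_contra hn
    have hlA : l ∈ A := (mem_filter.1 hl).1
    have h5 := h4 l hlA hn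
    exact ((hs m A hA s h1 s' h2).1 l hlA).2.2.2 h5 hl
  · intro hl
    exact mem_filter.2 ⟨hT hl, h3 l hl⟩

theorem mem_Fl {A : Finset ℕ} {s s' : ℤ × ℤ} {l : ℕ} :
    l ∈ Fl A s s' ↔ l ∈ A ∧ (l : ℤ) ∣ s.1 * s'.2 + s'.1 * s.2 := by
  unfold Fl
  rw [mem_filter]

theorem Fl_comm (A : Finset ℕ) (s s' : ℤ × ℤ) : Fl A s s' = Fl A s' s := by
  ext l
  rw [mem_Fl, mem_Fl, add_comm (s.1 * s'.2)]

theorem Fl_self (hs : S_SYM) {m : ℕ} {A : Finset ℕ} (hA : MA m A) {s : ℤ × ℤ}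
    (h1 : s ∈ Sol m A) : Fl A s s = ∅ := by
  rw [eq_empty_iff_forall_notMem]
  intro l hl
  have hlA : l ∈ A := (mem_filter.1 hl).1
  exact ((hs m A hA s h1 s h1).1 l hlA).2.2.2 (by rw [sub_self]; exact dvd_zero _) hl

/-- composition of flips -/
theorem Fl_comp (hs : S_SYM) {m : ℕ} {A : Finset ℕ} (hA : MA m A) {s s1 s2 : ℤ × ℤ}
    (h : s ∈ Sol m A) (h1 : s1 ∈ Sol m A) (h2 : s2 ∈ Sol m A) :
    Fl A s1 s2 = symmDiff (Fl A s s1) (Fl A s s2) := by
  ext l
  rw [mem_symmDiff]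
  by_cases hl : l ∈ A
  · have hp := Nat.prime_iff_prime_int.1 (prime_of hA.1 hl)
    have hy := ((hs m A hA s h s1 h1).1 l hl).1
    have k1 := ((hs m A hA s h s1 h1).1 l hl).2.2
    have k2 := ((hs m A hA s h s2 h2).1 l hl).2.2
    have k3 := ((hs m A hA s1 h1 s2 h2).1 l hl).2.2
    have red : ∀ z : ℤ, (l : ℤ) ∣ s.2 * z → (l : ℤ) ∣ z := fun z hz =>
      (hp.dvd_or_dvd hz).resolve_left hy
    by_cases a : l ∈ Fl A s s1 <;> by_cases b : l ∈ Fl A s s2
    · have a' := (mem_Fl.1 a).2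
      have b' := (mem_Fl.1 b).2
      have : l ∉ Fl A s1 s2 := k3.2 (red _ (by
        have e : s.2 * (s1.1 * s2.2 - s2.1 * s1.2) = s2.2 * (s.1 * s1.2 + s1.1 * s.2) -
          s1.2 * (s.1 * s2.2 + s2.1 * s.2) := by ring
        rw [e]
        exact dvd_sub (Dvd.dvd.mul_left a' _) (Dvd.dvd.mul_left b' _)))
      simp [a, b, this]
    · have a' := (mem_Fl.1 a).2
      have b' := k2.1 b
      have : l ∈ Fl A s1 s2 := mem_Fl.2 ⟨hl, red _ (by
        have e : s.2 * (s1.1 * s2.2 + s2.1 * s1.2) = s2.2 * (s.1 * s1.2 + s1.1 * s.2) -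
          s1.2 * (s.1 * s2.2 - s2.1 * s.2) := by ring
        rw [e]
        exact dvd_sub (Dvd.dvd.mul_left a' _) (Dvd.dvd.mul_left b' _))⟩
      simp [a, b, this]
    · have a' := k1.1 a
      have b' := (mem_Fl.1 b).2
      have : l ∈ Fl A s1 s2 := mem_Fl.2 ⟨hl, red _ (by
        have e : s.2 * (s1.1 * s2.2 + s2.1 * s1.2) = s1.2 * (s.1 * s2.2 + s2.1 * s.2) -
          s2.2 * (s.1 * s1.2 - s1.1 * s.2) := by ring
        rw [e]
        exact dvd_sub (Dvd.dvd.mul_left b' _) (Dvd.dvd.mul_left a' _))⟩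
      simp [a, b, this]
    · have a' := k1.1 a
      have b' := k2.1 b
      have : l ∉ Fl A s1 s2 := k3.2 (red _ (by
        have e : s.2 * (s1.1 * s2.2 - s2.1 * s1.2) = s1.2 * (s.1 * s2.2 - s2.1 * s.2) -
          s2.2 * (s.1 * s1.2 - s1.1 * s.2) := by ring
        rw [e]
        exact dvd_sub (Dvd.dvd.mul_left b' _) (Dvd.dvd.mul_left a' _)))
      simp [a, b, this]
  · have n1 : l ∉ Fl A s1 s2 := fun h => hl (mem_Fl.1 h).1
    have n2 : l ∉ Fl A s s1 := fun h => hl (mem_Fl.1 h).1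
    have n3 : l ∉ Fl A s s2 := fun h => hl (mem_Fl.1 h).1
    simp [n1, n2, n3]

/-- uniqueness of flips -/
theorem flip_unique (hs : S_SYM) (hu : S_UNI) {m : ℕ} {A : Finset ℕ} (hA : MA m A)
    {s s1 s2 : ℤ × ℤ} (h : s ∈ Sol m A) (h1 : s1 ∈ Sol m A) (h2 : s2 ∈ Sol m A)
    (he : Fl A s s1 = Fl A s s2) : s1 = s2 := by
  have h3 := Fl_comp hs hA h h1 h2
  rw [he, symmDiff_self] at h3
  apply hu m A hA s1 h1 s2 h2
  intro l hl
  apply ((hs m A hA s1 h1 s2 h2).1 l hl).2.2.1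
  rw [h3]
  exact notMem_empty l

/-! ### pigeonhole -/

theorem card_inn {A : Finset ℕ} (h : Cl A) : (inn A).card = (i3 A).card + (i5 A).card := by
  have h1 : inn A = i3 A ∪ i5 A := by
    ext l
    unfold inn i3 i5
    rw [mem_union, mem_filter, mem_filter, mem_filter]
    constructor
    · rintro ⟨hl, h2⟩
      rcases mod8 h hl with h3 | h3 | h3
      · exact absurd h3 h2
      · exact Or.inl ⟨hl, h3⟩
      · exact Or.inr ⟨hl, h3⟩
    · rintro (⟨hl, h2⟩ | ⟨hl, h2⟩)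
      · exact ⟨hl, by omega⟩
      · exact ⟨hl, by omega⟩
  rw [h1, card_union_of_disjoint]
  rw [disjoint_left]
  intro l h2 h3
  unfold i3 at h2
  unfold i5 at h3
  have h4 := (mem_filter.1 h2).2
  have h5 := (mem_filter.1 h3).2
  omega

theorem card_A {A : Finset ℕ} (h : Cl A) :
    A.card = (sp A).card + ((i3 A).card + (i5 A).card) := by
  rw [← card_inn h]
  unfold sp inn
  exact (card_filter_add_card_filter_not _).symm

/-- sets with an even number of inert primes -/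
def TU (r0 : ℕ) (U : Finset ℕ) : Finset ℕ := if Even (inn U).card then U else insert r0 U

theorem TU_even {r0 : ℕ} {U : Finset ℕ} (h0 : ¬ r0 % 8 = 1) (hU : r0 ∉ U) :
    Even (inn (TU r0 U)).card := by
  unfold TU
  split_ifs with h
  · exact h
  · have e : inn (insert r0 U) = insert r0 (inn U) := by
      unfold inn
      rw [filter_insert, if_pos h0]
    have hn : r0 ∉ inn U := fun h1 => hU (mem_filter.1 h1).1
    rw [e, card_insert_of_notMem hn]
    exact (Nat.not_even_iff_odd.1 h).add_one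

theorem TU_erase {r0 : ℕ} {U : Finset ℕ} (hU : r0 ∉ U) : (TU r0 U).erase r0 = U := by
  unfold TU
  split_ifs with h
  · exact erase_eq_of_notMem hU
  · exact erase_insert hU

theorem TU_sub {A : Finset ℕ} {r0 : ℕ} {U : Finset ℕ} (h0 : r0 ∈ A) (hU : U ⊆ A) :
    TU r0 U ⊆ A := by
  unfold TU
  split_ifs with h
  · exact hU
  · exact insert_subset h0 hU

/-- the values of the symbols -/
noncomputable def code (A : Finset ℕ) (r r' : ℕ) (s : ℤ × ℤ) : Finset ℕ × Bool :=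
  ((sp A).filter (fun p => jacobiSym s.2 p = 1), decide (jacobiSym s.2 r = jacobiSym s.2 r'))

theorem pm (hs : S_SYM) {m : ℕ} {A : Finset ℕ} (hA : MA m A) {s : ℤ × ℤ}
    (h : s ∈ Sol m A) {l : ℕ} (hl : l ∈ A) : jacobiSym s.2 l = 1 ∨ jacobiSym s.2 l = -1 := by
  have h4 := ((hs m A hA s h s h).1 l hl).1
  exact jacobiSym.eq_one_or_neg_one (gcd1 (prime_of hA.1 hl) h4)

theorem same_code (hs : S_SYM) {m : ℕ} {A : Finset ℕ} (hA : MA m A) {s s' : ℤ × ℤ}
    (h1 : s ∈ Sol m A) (h2 : s' ∈ Sol m A) {r r' : ℕ} (hr : r ∈ A) (hr' : r' ∈ A)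
    (hc : code A r r' s = code A r r' s') :
    (∀ p ∈ sp A, jacobiSym (s.2 * s'.2) p = 1) ∧
      jacobiSym (s.2 * s'.2) r = jacobiSym (s.2 * s'.2) r' := by
  unfold code at hc
  rw [Prod.mk.injEq, decide_eq_decide] at hc
  constructor
  · intro p hp
    have hpA : p ∈ A := (mem_filter.1 hp).1
    have h3 : (jacobiSym s.2 p = 1 ↔ jacobiSym s'.2 p = 1) := by
      have := Finset.ext_iff.1 hc.1 p
      rw [mem_filter, mem_filter] at this
      exact ⟨fun h => (this.1 ⟨hp, h⟩).2, fun h => (this.2 ⟨hp, h⟩).2⟩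
    rw [jacobiSym.mul_left]
    rcases pm hs hA h1 hpA with a | a
    · rw [a, h3.1 a, one_mul]
    · rcases pm hs hA h2 hpA with b | b
      · rw [h3.2 b] at a
        norm_num at a
      · rw [a, b]; norm_num
  · rw [jacobiSym.mul_left, jacobiSym.mul_left]
    have h3 := hc.2
    rcases pm hs hA h1 hr with a | a <;> rcases pm hs hA h1 hr' with b | b <;>
      rcases pm hs hA h2 hr with c | c <;> rcases pm hs hA h2 hr' with d | d <;>
      rw [a, b, c, d] at h3 <;>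
      first
        | (exfalso; norm_num at h3; done)
        | (rw [a, b, c, d]; done)
        | (rw [a, b, c, d]; norm_num; done)

theorem pig (hs : S_SYM) (hf : S_FLIP) {m : ℕ} {A : Finset ℕ} (hA : MA m A) {s0 : ℤ × ℤ}
    (h0 : s0 ∈ Sol m A) (r r' : ℕ) {r0 : ℕ} (hr0 : r0 ∈ inn A) (n : ℕ)
    (hn : 2 ^ ((sp A).card + 1) * n < 2 ^ (A.card - 1)) :
    ∃ (F : Finset ℕ → ℤ × ℤ) (c : Finset ℕ × Bool) (S : Finset (Finset ℕ)), n < S.card ∧
      ∀ U ∈ S, F U ∈ Sol m A ∧ code A r r' (F U) = c ∧ r0 ∉ U ∧ Fl A s0 (F U) = TU r0 U := by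
  classical
  have hr0A : r0 ∈ A := (mem_filter.1 hr0).1
  have hex : ∀ U : Finset ℕ, U ∈ (A.erase r0).powerset →
      ∃ s' ∈ Sol m A, Fl A s0 s' = TU r0 U := by
    intro U hU
    have hU' := mem_powerset.1 hU
    have hn : r0 ∉ U := fun h => (mem_erase.1 (hU' h)).1 rfl
    exact exists_flip hs hf hA h0 (TU_sub hr0A (hU'.trans (erase_subset _ _)))
      (TU_even (mem_filter.1 hr0).2 hn)
  choose! F hF1 hF2 using hex
  obtain ⟨c, -, hc⟩ := Finset.exists_lt_card_fiber_of_mul_lt_card_of_maps_to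
    (s := (A.erase r0).powerset) (t := (sp A).powerset ×ˢ (univ : Finset Bool))
    (f := fun U => code A r r' (F U)) (n := n)
    (by
      intro U _
      rw [mem_product, mem_powerset]
      exact ⟨filter_subset _ _, mem_univ _⟩)
    (by
      rw [card_product, card_powerset, card_powerset, card_erase_of_mem hr0A, card_univ,
        Fintype.card_bool, ← pow_succ]
      exact hn)
  refine ⟨F, c, _, hc, ?_⟩
  intro U hU
  rw [mem_filter] at hU
  have hU' := mem_powerset.1 hU.1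
  exact ⟨hF1 U hU.1, hU.2, fun h => (mem_erase.1 (hU' h)).1 rfl, hF2 U hU.1⟩

/-- the flips in the case of three inert primes -/
theorem exists_T3 (hs : S_SYM) (hf : S_FLIP) {A : Finset ℕ} (hA : MA 3 A)
    (h3 : (i3 A).card = 1) (h5 : (i5 A).card = 2) {s0 : ℤ × ℤ} (h0 : s0 ∈ Sol 3 A) :
    ∃ T : Finset ℕ, T ⊆ A ∧ Even (inn T).card ∧ T ≠ ∅ ∧ cnd A (fT 3 A T) := by
  obtain ⟨q, hq⟩ := card_eq_one.1 h3
  obtain ⟨r, r', hrr, hr⟩ := card_eq_two.1 h5
  have hrA : r ∈ i5 A := by rw [hr]; simp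
  have hrA' : r' ∈ i5 A := by rw [hr]; simp
  have hr0 : r ∈ inn A := by
    unfold inn
    rw [mem_filter]
    have := mem_filter.1 hrA
    exact ⟨this.1, by omega⟩
  have hcA := card_A hA.1
  obtain ⟨F, c, S, hS, hF⟩ := pig hs hf hA h0 r r' hr0 1 (by
    rw [mul_one]
    apply Nat.pow_lt_pow_right (by norm_num)
    omega)
  obtain ⟨U, hU, U', hU', hne⟩ := one_lt_card.1 hS
  obtain ⟨a1, a2, a3, a4⟩ := hF U hU
  obtain ⟨b1, b2, b3, b4⟩ := hF U' hU'
  have hc := same_code hs hA a1 b1 (mem_filter.1 hrA).1 (mem_filter.1 hrA').1 (a2.trans b2.symm)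
  refine ⟨Fl A (F U) (F U'), filter_subset _ _, (hs 3 A hA _ a1 _ b1).2.1, ?_, ?_⟩
  · rw [Fl_comp hs hA h0 a1 b1, a4, b4]
    intro h
    have h6 : TU r U = TU r U' := symmDiff_eq_bot.1 h
    apply hne
    rw [← TU_erase a3, ← TU_erase b3, h6]
  · apply cnd_to hs hA a1 b1
    refine ⟨hc.1, ?_, ?_⟩
    · intro x hx y hy
      rw [hq, mem_singleton] at hx hy
      rw [hx, hy]
    · intro x hx y hy
      rw [hr, mem_insert, mem_singleton] at hx hy
      rcases hx with rfl | rfl <;> rcases hy with rfl | rfl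
      · rfl
      · exact hc.2
      · exact hc.2.symm
      · rfl

/-- the flips in the case of four inert primes -/
theorem exists_T4 (hs : S_SYM) (hp : S_PRO) (hf : S_FLIP) {A : Finset ℕ} (hA : MA 9 A)
    (h3 : (i3 A).card = 2) (h5 : (i5 A).card = 2) {s0 : ℤ × ℤ} (h0 : s0 ∈ Sol 9 A) :
    ∃ T : Finset ℕ, T ⊆ A ∧ Even (inn T).card ∧ T ≠ ∅ ∧ T ≠ A ∧ cnd A (fT 9 A T) := by
  obtain ⟨q, q', hqq, hq⟩ := card_eq_two.1 h3
  obtain ⟨r, r', hrr, hr⟩ := card_eq_two.1 h5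
  have hrA : r ∈ i5 A := by rw [hr]; simp
  have hrA' : r' ∈ i5 A := by rw [hr]; simp
  have hr0 : r ∈ inn A := by
    unfold inn
    rw [mem_filter]
    have := mem_filter.1 hrA
    exact ⟨this.1, by omega⟩
  have hcA := card_A hA.1
  obtain ⟨F, c, S, hS, hF⟩ := pig hs hf hA h0 r r' hr0 2 (by
    rw [← pow_succ]
    apply Nat.pow_lt_pow_right (by norm_num)
    omega)
  obtain ⟨U1, U2, U3, hU1, hU2, hU3, n12, n13, n23⟩ := two_lt_card_iff.1 hS
  -- two members with the same code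
  have key : ∀ U ∈ S, ∀ U' ∈ S, U ≠ U' → Fl A (F U) (F U') ≠ ∅ ∧
      cnd A (fT 9 A (Fl A (F U) (F U'))) := by
    intro U hU U' hU' hne
    obtain ⟨a1, a2, a3, a4⟩ := hF U hU
    obtain ⟨b1, b2, b3, b4⟩ := hF U' hU'
    have hc := same_code hs hA a1 b1 (mem_filter.1 hrA).1 (mem_filter.1 hrA').1 (a2.trans b2.symm)
    refine ⟨?_, ?_⟩
    · rw [Fl_comp hs hA h0 a1 b1, a4, b4]
      intro h
      have h6 : TU r U = TU r U' := symmDiff_eq_bot.1 h
      apply hne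
      rw [← TU_erase a3, ← TU_erase b3, h6]
    · apply cnd_to hs hA a1 b1
      have hpm : ∀ l ∈ A, jacobiSym ((F U).2 * (F U').2) l = 1 ∨
          jacobiSym ((F U).2 * (F U').2) l = -1 := by
        intro l hl
        rw [jacobiSym.mul_left]
        rcases pm hs hA a1 hl with x | x <;> rcases pm hs hA b1 hl with y | y <;> rw [x, y] <;>
          norm_num
      have hprod : ∏ l ∈ A, jacobiSym ((F U).2 * (F U').2) l = 1 := by
        simp only [jacobiSym.mul_left]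
        rw [prod_mul_distrib, hp A hA _ a1, hp A hA _ b1, one_mul]
      have hsplit : A = sp A ∪ (i3 A ∪ i5 A) := by
        ext l
        unfold sp i3 i5
        rw [mem_union, mem_union, mem_filter, mem_filter, mem_filter]
        constructor
        · intro hl
          rcases mod8 hA.1 hl with h6 | h6 | h6
          · exact Or.inl ⟨hl, h6⟩
          · exact Or.inr (Or.inl ⟨hl, h6⟩)
          · exact Or.inr (Or.inr ⟨hl, h6⟩)
        · rintro (h6 | h6 | h6)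
          · exact h6.1
          · exact h6.1
          · exact h6.1
      have d1 : Disjoint (sp A) (i3 A ∪ i5 A) := by
        rw [disjoint_left]
        intro l h6 h7
        have h8 := (mem_filter.1 h6).2
        rcases mem_union.1 h7 with h9 | h9
        · have := (mem_filter.1 h9).2
          omega
        · have := (mem_filter.1 h9).2
          omega
      have d2 : Disjoint (i3 A) (i5 A) := by
        rw [disjoint_left]
        intro l h6 h7
        have h8 := (mem_filter.1 h6).2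
        have h9 := (mem_filter.1 h7).2
        omega
      have hqA : q ∈ A := by
        have : q ∈ i3 A := by rw [hq]; simp
        exact (mem_filter.1 this).1
      have hqA' : q' ∈ A := by
        have : q' ∈ i3 A := by rw [hq]; simp
        exact (mem_filter.1 this).1
      rw [hsplit, prod_union d1, prod_union d2, prod_eq_one hc.1, hq, hr, prod_pair hqq,
        prod_pair hrr, hc.2, one_mul] at hprod
      have hqe : jacobiSym ((F U).2 * (F U').2) q = jacobiSym ((F U).2 * (F U').2) q' := by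
        rcases hpm q hqA with x | x <;> rcases hpm q' hqA' with y | y <;>
          rcases hpm r' (mem_filter.1 hrA').1 with z | z <;> rw [x, y, z] at hprod <;>
          rw [x, y] <;> norm_num at hprod
      refine ⟨hc.1, ?_, ?_⟩
      · intro x hx y hy
        rw [hq, mem_insert, mem_singleton] at hx hy
        rcases hx with rfl | rfl <;> rcases hy with rfl | rfl
        · rfl
        · exact hqe
        · exact hqe.symm
        · rfl
      · intro x hx y hy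
        rw [hr, mem_insert, mem_singleton] at hx hy
        rcases hx with rfl | rfl <;> rcases hy with rfl | rfl
        · rfl
        · exact hc.2
        · exact hc.2.symm
        · rfl
  obtain ⟨k1, k2⟩ := key U1 hU1 U2 hU2 n12
  obtain ⟨k3, k4⟩ := key U1 hU1 U3 hU3 n13
  obtain ⟨k5, -⟩ := key U2 hU2 U3 hU3 n23
  have s1 := (hF U1 hU1).1
  have s2 := (hF U2 hU2).1
  have s3 := (hF U3 hU3).1
  by_cases hA1 : Fl A (F U1) (F U2) = A
  · refine ⟨Fl A (F U1) (F U3), filter_subset _ _, (hs 9 A hA _ s1 _ s3).2.1, k3, ?_, k4⟩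
    intro hA2
    apply k5
    rw [Fl_comp hs hA s1 s2 s3, hA1, hA2]
    exact symmDiff_self _
  · exact ⟨Fl A (F U1) (F U2), filter_subset _ _, (hs 9 A hA _ s1 _ s2).2.1, k1, hA1, k2⟩

/-! ### representations and solutions -/

theorem cnd_neg_one (A : Finset ℕ) : cnd A (fun l => jacobiSym (-1) l) := by
  have h4 : ∀ l : ℕ, l % 4 = 1 → jacobiSym (-1) l = 1 := by
    intro l hl
    rw [jacobiSym.at_neg_one (by rw [Nat.odd_iff]; omega), ZMod.χ₄_nat_one_mod_four hl]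
  have h5 : ∀ l : ℕ, l % 4 = 3 → jacobiSym (-1) l = -1 := by
    intro l hl
    rw [jacobiSym.at_neg_one (by rw [Nat.odd_iff]; omega), ZMod.χ₄_nat_three_mod_four hl]
  refine ⟨fun p hp => h4 p (by have := (mem_filter.1 hp).2; omega), fun r hr r' hr' => ?_,
    fun r hr r' hr' => ?_⟩
  · beta_reduce
    rw [h5 r (by have := (mem_filter.1 hr).2; omega), h5 r' (by have := (mem_filter.1 hr').2; omega)]
  · beta_reduce
    rw [h4 r (by have := (mem_filter.1 hr).2; omega), h4 r' (by have := (mem_filter.1 hr').2; omega)]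

theorem cond_neg {A : Finset ℕ} {y : ℤ} (hy : Cond y A) : Cond (-y) A := by
  refine cnd_congr (fun l _ => ?_) (cnd_mul (cnd_neg_one A) hy)
  rw [← jacobiSym.mul_left, neg_one_mul]

theorem cond_natAbs {A : Finset ℕ} {y : ℤ} (hy : Cond y A) :
    Cond ((y.natAbs : ℕ) : ℤ) A := by
  rcases Int.natAbs_eq y with h1 | h1
  · rwa [← h1]
  · have h2 := cond_neg hy
    have h3 : -y = ((y.natAbs : ℕ) : ℤ) := by omega
    rwa [h3] at h2

theorem pr_odd {A : Finset ℕ} (h : Cl A) : Odd (pr A) := by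
  unfold pr
  exact Finset.prod_induction _ Odd (fun _ _ ha hb => ha.mul hb) odd_one fun l hl => odd_of h hl

theorem pr_pos {A : Finset ℕ} (h : Cl A) : 0 < pr A := (pr_odd h).pos

theorem not_three {A : Finset ℕ} (h : Cl A) : ¬ 3 ∣ pr A := by
  intro h1
  unfold pr at h1
  obtain ⟨l, hl, h2⟩ := (Nat.prime_three.prime.dvd_finsetProd_iff _).1 h1
  have h3 := (Nat.prime_dvd_prime_iff_eq Nat.prime_three (prime_of h hl)).1 h2
  exact h.2 (h3 ▸ hl)

theorem not_seven {A : Finset ℕ} (h : Cl A) : ¬ 7 ∣ pr A := by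
  intro h1
  unfold pr at h1
  obtain ⟨l, hl, h2⟩ := ((by norm_num : Nat.Prime 7).prime.dvd_finsetProd_iff _).1 h1
  exact mod7 h hl (Nat.mod_eq_zero_of_dvd h2)

/-- normalization of a representation -/
theorem to_sol {m : ℕ} {A : Finset ℕ} (hA : MA m A) {b : ℤ} {y : ℕ}
    (he : (m : ℤ) * (pr A : ℤ) = b ^ 2 + 14 * (y : ℤ) ^ 2) (h3 : ¬ (3 : ℤ) ∣ b)
    (hc : Cond y A) : ∃ s ∈ Sol m A, (s.1 = b ∨ s.1 = -b) ∧ Cond s.2 A := by
  have hodd := pr_odd hA.1
  have hm : m = 9 ∨ m = 3 := by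
    rcases hA.2 with h | h
    · exact Or.inl h.1
    · exact Or.inr h.1
  have hb : b % 2 = 1 := by
    have h1 : Odd ((m : ℤ) * (pr A : ℤ)) := by
      have h2 : Odd (m * pr A) := by
        rcases hm with rfl | rfl
        · exact Odd.mul (by decide) hodd
        · exact Odd.mul (by decide) hodd
      exact_mod_cast h2
    rw [he] at h1
    have h2 : Odd (b ^ 2) := by
      rcases Int.even_or_odd (b ^ 2) with h3 | h3
      · exfalso
        have h4 : Even (b ^ 2 + 14 * (y : ℤ) ^ 2) :=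
          h3.add (Even.mul_right (by decide) _)
        exact (Int.not_even_iff_odd.2 h1) h4
      · exact h3
    have h3 : Odd b := by
      rcases Int.even_or_odd b with h4 | h4
      · exfalso
        exact (Int.not_even_iff_odd.2 h2) (h4.pow_of_ne_zero two_ne_zero)
      · exact h4
    exact Int.odd_iff.1 h3
  -- the sign of `b`
  obtain ⟨b', hb', hb4⟩ : ∃ b' : ℤ, (b' = b ∨ b' = -b) ∧ b' % 4 = 1 := by
    have : b % 4 = 1 ∨ b % 4 = 3 := by omega
    rcases this with h | h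
    · exact ⟨b, Or.inl rfl, h⟩
    · exact ⟨-b, Or.inr rfl, by omega⟩
  have hb2 : b' ^ 2 = b ^ 2 := by rcases hb' with rfl | rfl <;> ring
  have hb3 : ¬ (3 : ℤ) ∣ b' := by
    rcases hb' with rfl | rfl
    · exact h3
    · rwa [dvd_neg]
  -- the sign of `y`
  obtain ⟨y', hy', hy3⟩ : ∃ y' : ℤ, (y' = y ∨ y' = -y) ∧ (3 : ℤ) ∣ y' - b' := by
    have h5 : (3 : ℤ) ∣ ((y : ℤ) - b') * ((y : ℤ) + b') := by
      have h6 : ((y : ℤ) - b') * ((y : ℤ) + b') = (15 * (y : ℤ) ^ 2) - (m : ℤ) * (pr A : ℤ) := by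
        rw [he, ← hb2]; ring
      rw [h6]
      apply dvd_sub
      · exact Dvd.dvd.mul_right (by norm_num) _
      · apply Dvd.dvd.mul_right
        rcases hm with rfl | rfl
        · exact ⟨3, by norm_num⟩
        · exact ⟨1, by norm_num⟩
    rcases Int.prime_three.dvd_or_dvd h5 with h7 | h7
    · exact ⟨y, Or.inl rfl, h7⟩
    · refine ⟨-y, Or.inr rfl, ?_⟩
      have : -(y : ℤ) - b' = -((y : ℤ) + b') := by ring
      rw [this, dvd_neg]
      exact h7
  have hy2 : y' ^ 2 = (y : ℤ) ^ 2 := by rcases hy' with rfl | rfl <;> ring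
  refine ⟨(b', y'), ⟨?_, hb4, hb3, hy3⟩, hb', ?_⟩
  · show (m : ℤ) * (pr A : ℤ) = b' ^ 2 + 14 * y' ^ 2
    rw [hb2, hy2, he]
  · rcases hy' with rfl | rfl
    · exact hc
    · exact cond_neg hc

/-- the bounds -/
theorem of_sol {m : ℕ} {A : Finset ℕ} (hA : MA m A) {s : ℤ × ℤ} (hs : s ∈ Sol m A)
    (hc : Cond s.2 A) : -((m : ℤ) * (pr A : ℤ)) < s.1 ∧ s.1 < (m : ℤ) * (pr A : ℤ) ∧
      ∃ y ∈ range (m * pr A), (m : ℤ) * (pr A : ℤ) = s.1 ^ 2 + 14 * (y : ℤ) ^ 2 ∧ Cond y A := by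
  have hpos := pr_pos hA.1
  have hm : 3 ≤ m := by
    rcases hA.2 with h | h
    · omega
    · omega
  have hN : (3 : ℤ) ≤ (m : ℤ) * (pr A : ℤ) := by
    have h1 : 3 * 1 ≤ m * pr A := Nat.mul_le_mul hm hpos
    have h2 : ((3 * 1 : ℕ) : ℤ) ≤ ((m * pr A : ℕ) : ℤ) := Int.ofNat_le.2 h1
    push_cast at h2
    linarith
  obtain ⟨h1, -, -, -⟩ := hs
  set N := (m : ℤ) * (pr A : ℤ) with hNdef
  have h2 : s.1 ^ 2 ≤ N := by nlinarith [sq_nonneg s.2]
  have h3 : 14 * s.2 ^ 2 ≤ N := by nlinarith [sq_nonneg s.1]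
  refine ⟨?_, ?_, s.2.natAbs, ?_, ?_, cond_natAbs hc⟩
  · by_contra h
    push Not at h
    nlinarith
  · by_contra h
    push Not at h
    nlinarith
  · rw [mem_range]
    have h4 : ((s.2.natAbs : ℕ) : ℤ) < ((m * pr A : ℕ) : ℤ) := by
      push_cast
      rw [← hNdef]
      by_contra h
      push Not at h
      have h5 : |s.2| ^ 2 = s.2 ^ 2 := sq_abs _
      nlinarith
    exact_mod_cast h4
  · rw [h1]
    congr 2
    exact (Int.natAbs_sq s.2).symm

/-- a solution is determined by its first coordinate -/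
theorem sol_fst {m : ℕ} {A : Finset ℕ} {s s' : ℤ × ℤ} (h : s ∈ Sol m A) (h' : s' ∈ Sol m A)
    (he : s.1 = s'.1) : s = s' := by
  obtain ⟨h1, -, h3, h4⟩ := h
  obtain ⟨h1', -, -, h4'⟩ := h'
  have h5 : s.2 ^ 2 = s'.2 ^ 2 := by
    rw [he] at h1
    linarith
  rcases sq_eq_sq_iff_eq_or_eq_neg.1 h5 with h6 | h6
  · exact Prod.ext he h6
  · exfalso
    apply h3
    rw [h6] at h4
    rw [← he] at h4'
    have h7 := dvd_sub h4' h4
    have h8 : s'.2 - s.1 - (-s'.2 - s.1) = 2 * s'.2 := by ring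
    rw [h8] at h7
    have h9 : (3 : ℤ) ∣ s'.2 := (Int.prime_three.dvd_or_dvd h7).resolve_left (by norm_num)
    have h10 : s.1 = s'.2 - (s'.2 - s.1) := by ring
    rw [h10]
    exact dvd_sub h9 h4'

/-- the same for representations of the same number up to sign -/
theorem sol_pm {m : ℕ} {A : Finset ℕ} {s s' : ℤ × ℤ} (h : s ∈ Sol m A) (h' : s' ∈ Sol m A)
    {b : ℤ} (he : s.1 = b ∨ s.1 = -b) (he' : s'.1 = b ∨ s'.1 = -b) : s = s' := by
  apply sol_fst h h'
  have h1 := h.2.1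
  have h2 := h'.2.1
  rcases he with a | a <;> rcases he' with c | c <;> omega

theorem zmod7_sq {a b : ZMod 7} (h : a ^ 2 = b ^ 2) : a = b ∨ a = -b := by
  revert a b
  decide

theorem ne_neg7 : ∀ x : ZMod 7, x ≠ 0 → x ≠ -x := by
  decide

theorem sol_sq7 {m : ℕ} {A : Finset ℕ} {s : ℤ × ℤ} (h : s ∈ Sol m A) :
    ((s.1 : ℤ) : ZMod 7) ^ 2 = (m : ZMod 7) * (pr A : ZMod 7) := by
  have h1 := h.1
  have h2 : (((m : ℤ) * (pr A : ℤ) : ℤ) : ZMod 7) = ((s.1 ^ 2 + 14 * s.2 ^ 2 : ℤ) : ZMod 7) := by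
    rw [h1]
  push_cast at h2
  rw [h2]
  have h3 : (14 : ZMod 7) = 0 := by decide
  rw [h3, zero_mul, add_zero]

theorem rep_sq7 {m : ℕ} {A : Finset ℕ} {b : ℤ} {y : ℕ}
    (h1 : (m : ℤ) * (pr A : ℤ) = b ^ 2 + 14 * (y : ℤ) ^ 2) :
    ((b : ℤ) : ZMod 7) ^ 2 = (m : ZMod 7) * (pr A : ZMod 7) := by
  have h2 : (((m : ℤ) * (pr A : ℤ) : ℤ) : ZMod 7) =
      ((b ^ 2 + 14 * (y : ℤ) ^ 2 : ℤ) : ZMod 7) := by
    rw [h1]
  push_cast at h2
  rw [h2]
  have h3 : (14 : ZMod 7) = 0 := by decide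
  rw [h3, zero_mul, add_zero]

theorem norm_ne_zero {m : ℕ} {A : Finset ℕ} (hA : MA m A) :
    (m : ZMod 7) * (pr A : ZMod 7) ≠ 0 := by
  have : Fact (Nat.Prime 7) := ⟨by norm_num⟩
  apply mul_ne_zero
  · rcases hA.2 with h | h
    · rw [h.1]; decide
    · rw [h.1]; decide
  · intro h
    rw [ZMod.natCast_eq_zero_iff] at h
    exact not_seven hA.1 h

/-- one inert prime `3 mod 8`, two inert primes `5 mod 8` -/
theorem t_FQ (hs : S_SYM) (hu : S_UNI) (hf : S_FLIP) : S_FQ := by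
  intro A hCl h3 h5
  classical
  have hA : MA 3 A := ⟨hCl, Or.inr ⟨rfl, by unfold Ty; rw [h3, h5]; decide⟩⟩
  -- the representations as solutions
  have rep : ∀ b ∈ FixT A, ((b : ℤ) : ZMod 7) = -(2 * bt A) ∧
      ((b : ℤ) : ZMod 7) ^ 2 = ((3 : ℕ) : ZMod 7) * (pr A : ZMod 7) ∧
      ∃ s ∈ Sol 3 A, (s.1 = b ∨ s.1 = -b) ∧ Cond s.2 A := by
    intro b hb
    simp only [FixT, mem_filter] at hb
    obtain ⟨-, h6, y, -, h7, h8⟩ := hb
    have h7' : ((3 : ℕ) : ℤ) * (pr A : ℤ) = b ^ 2 + 14 * (y : ℤ) ^ 2 := by exact_mod_cast h7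
    refine ⟨h6, rep_sq7 h7', to_sol hA h7' ?_ h8⟩
    intro h9
    obtain ⟨c, rfl⟩ := h9
    have h10 : (3 : ℤ) ∣ 14 * (y : ℤ) ^ 2 := by
      have : 14 * (y : ℤ) ^ 2 = 3 * ((pr A : ℤ) - 3 * c ^ 2) := by linarith
      rw [this]
      exact dvd_mul_right _ _
    have h11 : (3 : ℤ) ∣ (y : ℤ) ^ 2 := (Int.prime_three.dvd_or_dvd h10).resolve_left (by norm_num)
    obtain ⟨d, hd⟩ := Int.prime_three.dvd_of_dvd_pow h11
    rw [hd] at h7
    have h12 : (3 : ℤ) ∣ (pr A : ℤ) := ⟨c ^ 2 + 14 * d ^ 2, by linarith⟩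
    exact not_three hCl (by exact_mod_cast h12)
  have back : ∀ s ∈ Sol 3 A, Cond s.2 A → ∀ b : ℤ, (b = s.1 ∨ b = -s.1) →
      ((b : ℤ) : ZMod 7) = -(2 * bt A) → b ∈ FixT A := by
    intro s h6 h7 b hb h8
    obtain ⟨h9, h10, y, h11, h12, h13⟩ := of_sol hA h6 h7
    simp only [FixT, mem_filter, mem_Ioo]
    push_cast at h9 h10 h12
    refine ⟨?_, h8, y, h11, ?_, h13⟩
    · rcases hb with rfl | rfl
      · exact ⟨h9, h10⟩
      · exact ⟨by linarith, by linarith⟩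
    · rcases hb with rfl | rfl
      · exact h12
      · rw [neg_sq]; exact h12
  rcases (FixT A).eq_empty_or_nonempty with hem | ⟨b0, hb0⟩
  · rw [hem]; decide
  obtain ⟨r1, r2, s0, hs0, -, -⟩ := rep b0 hb0
  obtain ⟨T, hTA, hTe, hTne, hTc⟩ := exists_T3 hs hf hA h3 h5 hs0
  have hβ : (2 * bt A) ^ 2 = ((3 : ℕ) : ZMod 7) * (pr A : ZMod 7) := by
    rw [← r2, r1, neg_sq]
  have hβ0 : 2 * bt A ≠ 0 := by
    intro h
    rw [h] at hβ
    exact norm_ne_zero hA (by rw [← hβ]; rw [zero_pow two_ne_zero])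
  refine even_of_matching (FixT A) (fun b b' => ∃ s ∈ Sol 3 A, ∃ s' ∈ Sol 3 A,
    (s.1 = b ∨ s.1 = -b) ∧ (s'.1 = b' ∨ s'.1 = -b') ∧ Fl A s s' = T) ?_ ?_ ?_ ?_
  · rintro a b ⟨s, h6, s', h7, h8, h9, h10⟩
    exact ⟨s', h7, s, h6, h9, h8, by rw [Fl_comm]; exact h10⟩
  · rintro a - ⟨s, h6, s', h7, h8, h9, h10⟩
    have h11 := sol_pm h6 h7 h8 h9
    subst h11
    rw [Fl_self hs hA h6] at h10
    exact hTne h10.symm
  · intro b hb
    obtain ⟨-, -, s, h6, h7, h8⟩ := rep b hb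
    obtain ⟨s', h9, h10⟩ := exists_flip hs hf hA h6 hTA hTe
    have h11 : Cond s'.2 A := cond_flip hs hA h6 h9 (by rw [h10]; exact hTc) h8
    have h12 := sol_sq7 h9
    rw [← hβ] at h12
    rcases zmod7_sq h12 with h13 | h13
    · refine ⟨-s'.1, back s' h9 h11 _ (Or.inr rfl) ?_, s, h6, s', h9, h7, Or.inr (by ring), h10⟩
      push_cast
      rw [h13]
    · exact ⟨s'.1, back s' h9 h11 _ (Or.inl rfl) h13, s, h6, s', h9, h7, Or.inl rfl, h10⟩
  · rintro b - a ha a' ha' ⟨s, h6, s1, h7, h8, h9, h10⟩ ⟨t, k6, t1, k7, k8, k9, k10⟩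
    have e1 := sol_pm h6 k6 h8 k8
    subst e1
    have e2 := flip_unique hs hu hA h6 h7 k7 (h10.trans k10.symm)
    subst e2
    have c1 := (rep a ha).1
    have c2 := (rep a' ha').1
    rcases h9 with h9 | h9 <;> rcases k9 with k9 | k9
    · rw [← h9, k9]
    · exfalso
      have : a = -a' := by rw [← h9, k9]
      rw [this] at c1
      push_cast at c1
      rw [c2, neg_neg] at c1
      exact ne_neg7 _ hβ0 c1
    · exfalso
      have : a = -a' := by
        have := h9.symm.trans k9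
        linarith
      rw [this] at c1
      push_cast at c1
      rw [c2, neg_neg] at c1
      exact ne_neg7 _ hβ0 c1
    · have := h9.symm.trans k9
      linarith

/-- two inert primes of each kind -/
theorem t_F4 (hs : S_SYM) (hu : S_UNI) (ht : S_TOT) (hp : S_PRO) (hf : S_FLIP) : S_F4 := by
  intro A hCl h3 h5 ρ
  classical
  have hA : MA 9 A := ⟨hCl, Or.inl ⟨rfl, by unfold Ty; rw [h3, h5]; decide⟩⟩
  have rep : ∀ b ∈ FixR ρ A, b % 4 = 1 ∧ ((b : ℤ) : ZMod 7) = ρ ∧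
      ((b : ℤ) : ZMod 7) ^ 2 = ((9 : ℕ) : ZMod 7) * (pr A : ZMod 7) ∧
      ∃ s ∈ Sol 9 A, s.1 = b ∧ Cond s.2 A := by
    intro b hb
    simp only [FixR, mem_filter] at hb
    obtain ⟨-, h4, h6, h6', y, -, h7, h8⟩ := hb
    have h7' : ((9 : ℕ) : ℤ) * (pr A : ℤ) = b ^ 2 + 14 * (y : ℤ) ^ 2 := by exact_mod_cast h7
    obtain ⟨s, k1, k2, k3⟩ := to_sol hA h7' h6' h8
    refine ⟨h4, h6, rep_sq7 h7', s, k1, ?_, k3⟩
    rcases k2 with k2 | k2
    · exact k2
    · have := k1.2.1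
      omega
  have back : ∀ s ∈ Sol 9 A, Cond s.2 A → ((s.1 : ℤ) : ZMod 7) = ρ → s.1 ∈ FixR ρ A := by
    intro s h6 h7 h8
    obtain ⟨h9, h10, y, h11, h12, h13⟩ := of_sol hA h6 h7
    simp only [FixR, mem_filter, mem_Ioo]
    push_cast at h9 h10 h12
    exact ⟨⟨h9, h10⟩, h6.2.1, h8, h6.2.2.1, y, h11, h12, h13⟩
  rcases (FixR ρ A).eq_empty_or_nonempty with hem | ⟨b0, hb0⟩
  · rw [hem]; decide
  obtain ⟨-, r1, r2, s0, hs0, -, -⟩ := rep b0 hb0
  obtain ⟨T, hTA, hTe, hTne, hTneA, hTc⟩ := exists_T4 hs hp hf hA h3 h5 hs0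
  have hρ : ρ ^ 2 = ((9 : ℕ) : ZMod 7) * (pr A : ZMod 7) := by
    rw [← r2, r1]
  have hρ0 : ρ ≠ 0 := by
    intro h
    rw [h] at hρ
    exact norm_ne_zero hA (by rw [← hρ]; rw [zero_pow two_ne_zero])
  have hAe : Even (inn A).card := by
    rw [card_inn hCl, h3, h5]; decide
  have hAc : cnd A (fT 9 A A) := by
    refine cnd_congr (fun l hl => ?_) (cnd_seven hCl)
    unfold fT
    rw [if_pos hl, Finset.sdiff_self]
    have e : (7 : ℤ) * (((9 : ℕ) : ℤ) * (pr ∅ : ℤ)) = 7 * (3 * 3) := by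
      unfold pr
      rw [prod_empty]
      norm_num
    have g3 : (3 : ℤ).gcd l = 1 := by
      apply gcd1 (prime_of hCl hl)
      intro h
      have h' : l ∣ 3 := by exact_mod_cast h
      have := (Nat.prime_dvd_prime_iff_eq (prime_of hCl hl) Nat.prime_three).1 h'
      exact hCl.2 (this ▸ hl)
    rw [e, jacobiSym.mul_left, jacobiSym.mul_left 3 3, ← sq, jacobiSym.sq_one g3, mul_one]
  -- symbols at seven
  have j1 : ∀ a b : ℤ, ((a : ℤ) : ZMod 7) = ρ → ((b : ℤ) : ZMod 7) = ρ →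
      jacobiSym (a * b) 7 ≠ -1 := by
    intro a b ha hb h
    have h1 : jacobiSym (a * b) 7 = jacobiSym (a * a) 7 := by
      apply jacobiSym.mod_left'
      have h2 : ((a * b : ℤ) : ZMod 7) = ((a * a : ℤ) : ZMod 7) := by
        push_cast
        rw [ha, hb]
      exact (ZMod.intCast_eq_intCast_iff' _ _ 7).1 h2
    rw [h1, ← sq, jacobiSym.pow_left] at h
    have h3 := sq_nonneg (jacobiSym a 7)
    rw [h] at h3
    norm_num at h3
  have jneg : ∀ a b : ℤ, jacobiSym (-a * -b) 7 = jacobiSym (a * b) 7 := by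
    intro a b
    rw [neg_mul_neg]
  refine even_of_matching (FixR ρ A) (fun b b' => ∃ s ∈ Sol 9 A, ∃ s' ∈ Sol 9 A,
    s.1 = b ∧ s'.1 = b' ∧ (Fl A s s' = T ∨ Fl A s s' = symmDiff T A)) ?_ ?_ ?_ ?_
  · rintro a b ⟨s, h6, s', h7, h8, h9, h10⟩
    exact ⟨s', h7, s, h6, h9, h8, by rw [Fl_comm]; exact h10⟩
  · rintro a - ⟨s, h6, s', h7, h8, h9, h10⟩
    have h11 := sol_fst h6 h7 (h8.trans h9.symm)
    subst h11
    rw [Fl_self hs hA h6] at h10
    rcases h10 with h10 | h10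
    · exact hTne h10.symm
    · exact hTneA (symmDiff_eq_bot.1 h10.symm)
  · intro b hb
    obtain ⟨-, hbρ, -, s, h6, h7, h8⟩ := rep b hb
    obtain ⟨s1, k1, k2⟩ := exists_flip hs hf hA h6 hTA hTe
    have c1 : Cond s1.2 A := cond_flip hs hA h6 k1 (by rw [k2]; exact hTc) h8
    obtain ⟨s2, l1, l2⟩ := exists_flip hs hf hA k1 (subset_refl A) hAe
    have c2 : Cond s2.2 A := cond_flip hs hA k1 l1 (by rw [l2]; exact hAc) c1
    have e2 : Fl A s s2 = symmDiff T A := by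
      rw [Fl_comp hs hA k1 h6 l1, l2, Fl_comm A s1 s, k2]
    have htot := ht A hA s1 k1 s2 l1 (fun l hl => by
      have : l ∈ Fl A s1 s2 := by rw [l2]; exact hl
      exact (mem_Fl.1 this).2)
    have q1 := sol_sq7 k1
    have q2 := sol_sq7 l1
    rw [← hρ] at q1 q2
    rcases zmod7_sq q1 with q1 | q1
    · exact ⟨s1.1, back s1 k1 c1 q1, s, h6, s1, k1, h7, rfl, Or.inl k2⟩
    · rcases zmod7_sq q2 with q2 | q2
      · exact ⟨s2.1, back s2 l1 c2 q2, s, h6, s2, l1, h7, rfl, Or.inr e2⟩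
      · exfalso
        rw [← jneg] at htot
        exact j1 _ _ (by push_cast; rw [q1, neg_neg]) (by push_cast; rw [q2, neg_neg]) htot
  · rintro b - a ha a' ha' ⟨s, h6, s1, h7, h8, h9, h10⟩ ⟨t, k6, t1, k7, k8, k9, k10⟩
    have e1 := sol_fst h6 k6 (h8.trans k8.symm)
    subst e1
    have c1 := (rep a ha).2.1
    have c2 := (rep a' ha').2.1
    rw [← h9] at c1
    rw [← k9] at c2
    have hdiff : Fl A s1 t1 ≠ A := by
      intro h
      have htot := ht A hA s1 h7 t1 k7 (fun l hl => by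
        have : l ∈ Fl A s1 t1 := by rw [h]; exact hl
        exact (mem_Fl.1 this).2)
      exact j1 _ _ c1 c2 htot
    have hcomp := Fl_comp hs hA h6 h7 k7
    have hsame : Fl A s s1 = Fl A s t1 := by
      rcases h10 with h10 | h10 <;> rcases k10 with k10 | k10
      · rw [h10, k10]
      · exfalso
        apply hdiff
        rw [hcomp, h10, k10, ← symmDiff_assoc, symmDiff_self]
        exact bot_symmDiff A
      · exfalso
        apply hdiff
        rw [hcomp, h10, k10, symmDiff_comm T A, symmDiff_assoc, symmDiff_self]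
        exact symmDiff_bot A
      · rw [h10, k10]
    have e2 := flip_unique hs hu hA h6 h7 k7 hsame
    rw [← h9, ← k9, e2]

end Pool.Agent.Y528.ZG
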